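import Pool.Agent.V11135.SK.Initial

/-!
# The chromatic index of signed complete bipartite graphs `K_{r,r}`

For every signature `σ` on `K_{r,r}`, `r ≥ 1`, such that `r` is odd or the number of negative edges
is even, the signed graph `(K_{r,r}, σ)` has chromatic index `r`.

Proof.  View a colouring as a matrix `L` with rows and columns indexed by `ℤ/r`: each row of `L` and
each column of `(σ(a,b) L(a,b))` has to be a permutation of `M_r`.

1. `exists_initial`.  The diagonals `b - a = s`, `b - a = s + 1` together form a Hamiltonian cycle.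
   Decompose `K_{r,r}` (for odd `r`: minus one diagonal, coloured `0`) into such Hamiltonian cycles and
   colour the `i`-th one with `i`, `-i` alternately, starting at a fixed column `v`.  All rows and
   columns are fine except possibly the column `v`, where some of the classes `{i, -i}` may be bad:
   the same value occurs twice.
2. `prod_col`.  Comparing the product of the signs along rows and along columns shows that the number
   of bad classes is even if the product of `σ` over all the cells with a nonzero entry is `1`.  For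
   even `r` this is the hypothesis; for odd `r` it can be achieved by the choice of the diagonal.
3. `swap`.  If `{p, -p}` and `{q, -q}` are bad classes, with the values `p, p, q, q` in the column `v`,
   then a Kempe change which exchanges `p` with `-q` and `-p` with `q` along one chain starting in the
   column `v` at a `p` ends in the column `v` at a `q` and makes both classes good.  (The chain is an
   orbit of the product of two involutions.)
-/

set_option autoImplicit false

namespace Pool.Agent.Results.MP_b15362_co.CompleteBipartite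

open Finset Function Pool.Agent.V11135.SK

/-- The colour set `M_n`: `{0, ±1, …, ±k}` if `n = 2k + 1`, and `{±1, …, ±k}` if `n = 2k`. -/
def ColourSet (n : ℕ) : Set ℤ := {c | |c| ≤ ((n / 2 : ℕ) : ℤ) ∧ (c = 0 → Odd n)}

/-- An `n`-edge-colouring of the signed graph `(G, σ)`.  The value `f u w` is the colour of the
incidence of the vertex `u` with the edge `uw`. -/
structure IsColouring {V : Type} (G : SimpleGraph V) (σ : Sym2 V → ℤˣ) (n : ℕ)
    (f : V → V → ℤ) : Prop where
  mem : ∀ u w, G.Adj u w → f u w ∈ ColourSet n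
  sign : ∀ u w, G.Adj u w → f u w = -(σ s(u, w) : ℤ) * f w u
  proper : ∀ u w w', G.Adj u w → G.Adj u w' → w ≠ w' → f u w ≠ f u w'

/-- The chromatic index of the signed graph `(G, σ)`: the least `n` for which it has an
`n`-edge-colouring. -/
noncomputable def chromaticIndex {V : Type} (G : SimpleGraph V) (σ : Sym2 V → ℤˣ) : ℕ :=
  sInf {n | ∃ f, IsColouring G σ n f}

/-- The number of negative edges. -/
noncomputable def negativeEdges {V : Type} (G : SimpleGraph V) (σ : Sym2 V → ℤˣ) : ℕ :=
  {e | e ∈ G.edgeSet ∧ σ e = -1}.ncard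

theorem mem_colourSet {n : ℕ} {c : ℤ} : c ∈ ColourSet n ↔ c ∈ colours n := by
  rw [mem_colours]
  unfold ColourSet
  rw [Set.mem_ofPred_eq, abs_le, Nat.odd_iff]

theorem unit_cast (u : ℤˣ) : (u : ℤ) = 1 ∨ (u : ℤ) = -1 := by
  rcases Int.units_eq_one_or u with h | h <;> rw [h] <;> simp

theorem prod_sign {r : ℕ} (σ : Sym2 (Fin r ⊕ Fin r) → ℤˣ) :
    ∏ a : Fin r, ∏ b : Fin r, ((σ s(Sum.inl a, Sum.inr b) : ℤˣ) : ℤ) =
      (-1) ^ negativeEdges (completeBipartiteGraph (Fin r) (Fin r)) σ := by
  classical
  let F : Fin r × Fin r → Sym2 (Fin r ⊕ Fin r) := fun x => s(Sum.inl x.1, Sum.inr x.2)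
  have hF : Injective F := by
    rintro ⟨a, b⟩ ⟨a', b'⟩ h
    simp only [F, Sym2.eq_iff] at h
    rcases h with ⟨h1, h2⟩ | ⟨h1, -⟩
    · rw [Sum.inl_injective h1, Sum.inr_injective h2]
    · exact absurd h1 Sum.inl_ne_inr
  have hset : {e | e ∈ (completeBipartiteGraph (Fin r) (Fin r)).edgeSet ∧ σ e = -1} =
      F '' {x | σ (F x) = -1} := by
    ext e
    constructor
    · rintro ⟨he, hs⟩
      induction e using Sym2.ind with
      | _ x y =>
        rw [SimpleGraph.mem_edgeSet, completeBipartiteGraph_adj] at he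
        rcases he with ⟨hx, hy⟩ | ⟨hx, hy⟩
        · obtain ⟨a, rfl⟩ := Sum.isLeft_iff.1 hx
          obtain ⟨b, rfl⟩ := Sum.isRight_iff.1 hy
          exact ⟨(a, b), hs, rfl⟩
        · obtain ⟨b, rfl⟩ := Sum.isRight_iff.1 hx
          obtain ⟨a, rfl⟩ := Sum.isLeft_iff.1 hy
          refine ⟨(a, b), ?_, Sym2.eq_swap⟩
          show σ (s(Sum.inl a, Sum.inr b)) = -1
          rw [Sym2.eq_swap]; exact hs
    · rintro ⟨⟨a, b⟩, hs, rfl⟩
      refine ⟨?_, hs⟩
      show s(Sum.inl a, Sum.inr b) ∈ _
      rw [SimpleGraph.mem_edgeSet, completeBipartiteGraph_adj]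
      exact Or.inl ⟨rfl, rfl⟩
  unfold negativeEdges
  rw [hset, Set.ncard_image_of_injective _ hF, ← Finset.prod_product']
  have h1 : {x | σ (F x) = -1} = (((univ : Finset (Fin r × Fin r)).filter fun x => σ (F x) = -1 :
      Finset (Fin r × Fin r)) : Set (Fin r × Fin r)) := by
    ext x; simp
  rw [h1, Set.ncard_coe_finset]
  have h2 : ∀ x : Fin r × Fin r, ((σ s(Sum.inl x.1, Sum.inr x.2) : ℤˣ) : ℤ) =
      if σ (F x) = -1 then -1 else 1 := by
    intro x
    show ((σ (F x) : ℤˣ) : ℤ) = _
    rcases Int.units_eq_one_or (σ (F x)) with h | h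
    · rw [h, if_neg (by decide)]; rfl
    · rw [h, if_pos rfl]; rfl
  rw [Finset.univ_product_univ, Finset.prod_congr rfl fun x _ => h2 x, Finset.prod_ite,
    Finset.prod_const, Finset.prod_const_one, mul_one]

/-- **The chromatic index of `(K_{r,r}, σ)` is `r`** if `r` is odd or the number of negative edges is
even. -/
theorem result (r : ℕ) (hr : 0 < r) (σ : Sym2 (Fin r ⊕ Fin r) → ℤˣ)
    (h : Odd r ∨ Even (negativeEdges (completeBipartiteGraph (Fin r) (Fin r)) σ)) :
    chromaticIndex (completeBipartiteGraph (Fin r) (Fin r)) σ = r := by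
  classical
  have : NeZero r := ⟨hr.ne'⟩
  set G := completeBipartiteGraph (Fin r) (Fin r) with hG
  obtain ⟨e⟩ : Nonempty (ZMod r ≃ Fin r) := ⟨Fintype.equivOfCardEq (by rw [ZMod.card, Fintype.card_fin])⟩
  obtain ⟨L, h1, h2, h3⟩ := exists_matrix (r := r)
    (fun a b => ((σ s(Sum.inl (e a), Sum.inr (e b)) : ℤˣ) : ℤ)) (fun a b => unit_cast _) (by
      rcases h with h | h
      · exact Or.inl (Nat.odd_iff.1 h)
      · right
        rw [← h.neg_one_pow (α := ℤ), ← prod_sign σ]
        rw [← Equiv.prod_comp e fun a : Fin r =>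
          ∏ b : Fin r, ((σ s(Sum.inl a, Sum.inr b) : ℤˣ) : ℤ)]
        refine Finset.prod_congr rfl fun a _ => ?_
        rw [← Equiv.prod_comp e fun b : Fin r => ((σ s(Sum.inl (e a), Sum.inr b) : ℤˣ) : ℤ)])
  -- the colouring
  have hmem : r ∈ {n | ∃ f, IsColouring G σ n f} := by
    let f : Fin r ⊕ Fin r → Fin r ⊕ Fin r → ℤ := fun u w =>
      match u, w with
      | Sum.inl a, Sum.inr b => L (e.symm a) (e.symm b)
      | Sum.inr b, Sum.inl a => -((σ s(Sum.inl a, Sum.inr b) : ℤˣ) : ℤ) * L (e.symm a) (e.symm b)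
      | _, _ => 0
    have hf1 : ∀ a b, f (Sum.inl a) (Sum.inr b) = L (e.symm a) (e.symm b) := fun a b => rfl
    have hf2 : ∀ a b, f (Sum.inr b) (Sum.inl a) =
        -((σ s(Sum.inl a, Sum.inr b) : ℤˣ) : ℤ) * L (e.symm a) (e.symm b) := fun a b => rfl
    have hcases : ∀ u w, G.Adj u w → (∃ a b, u = Sum.inl a ∧ w = Sum.inr b) ∨
        ∃ a b, u = Sum.inr b ∧ w = Sum.inl a := by
      intro u w huw
      rw [hG, completeBipartiteGraph_adj] at huw
      rcases huw with ⟨hx, hy⟩ | ⟨hx, hy⟩
      · obtain ⟨a, rfl⟩ := Sum.isLeft_iff.1 hx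
        obtain ⟨b, rfl⟩ := Sum.isRight_iff.1 hy
        exact Or.inl ⟨a, b, rfl, rfl⟩
      · obtain ⟨b, rfl⟩ := Sum.isRight_iff.1 hx
        obtain ⟨a, rfl⟩ := Sum.isLeft_iff.1 hy
        exact Or.inr ⟨a, b, rfl, rfl⟩
    refine ⟨f, ?_, ?_, ?_⟩
    · intro u w huw
      rw [mem_colourSet]
      rcases hcases u w huw with ⟨a, b, rfl, rfl⟩ | ⟨a, b, rfl, rfl⟩
      · exact h1 _ _
      · rw [hf2, neg_mul]
        exact colours_neg _ (unit_mem colours_neg (unit_cast _) (h1 _ _))
    · intro u w huw
      rcases hcases u w huw with ⟨a, b, rfl, rfl⟩ | ⟨a, b, rfl, rfl⟩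
      · rw [hf1, hf2]
        have := unit_sq (unit_cast (σ s(Sum.inl a, Sum.inr b)))
        calc L (e.symm a) (e.symm b) = (((σ s(Sum.inl a, Sum.inr b) : ℤˣ) : ℤ) *
              ((σ s(Sum.inl a, Sum.inr b) : ℤˣ) : ℤ)) * L (e.symm a) (e.symm b) := by
                rw [this, one_mul]
          _ = _ := by ring
      · rw [hf1, hf2, Sym2.eq_swap]
    · intro u w w' huw huw' hne heq
      rcases hcases u w huw with ⟨a, b, rfl, rfl⟩ | ⟨a, b, rfl, rfl⟩
      · rcases hcases _ w' huw' with ⟨a', b', ha, rfl⟩ | ⟨a', b', ha, rfl⟩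
        · obtain rfl := Sum.inl_injective ha
          rw [hf1, hf1] at heq
          apply hne
          rw [e.symm.injective (h2 _ heq)]
        · exact absurd ha Sum.inl_ne_inr
      · rcases hcases _ w' huw' with ⟨a', b', ha, rfl⟩ | ⟨a', b', ha, rfl⟩
        · exact absurd ha Sum.inr_ne_inl
        · obtain rfl := Sum.inr_injective ha
          rw [hf2, hf2, neg_mul, neg_mul, neg_inj] at heq
          apply hne
          have := h3 (e.symm b) (a₁ := e.symm a) (a₂ := e.symm a') (by
            dsimp only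
            rw [e.apply_symm_apply, e.apply_symm_apply, e.apply_symm_apply]
            exact heq)
          rw [e.symm.injective this]
  apply le_antisymm (Nat.sInf_le hmem)
  apply le_csInf ⟨r, hmem⟩
  rintro n ⟨f, hf⟩
  -- a vertex of degree `r` needs `r` colours
  have hadj : ∀ b : Fin r, G.Adj (Sum.inl ⟨0, hr⟩) (Sum.inr b) := by
    intro b
    rw [hG, completeBipartiteGraph_adj]
    exact Or.inl ⟨rfl, rfl⟩
  have hle : (univ : Finset (Fin r)).card ≤ (colours n).card := by
    apply Finset.card_le_card_of_injOn (fun b => f (Sum.inl ⟨0, hr⟩) (Sum.inr b))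
    · intro b _
      exact Finset.mem_coe.2 (mem_colourSet.1 (hf.mem _ _ (hadj b)))
    · intro b _ b' _ hbb
      by_contra hne
      exact hf.proper _ _ _ (hadj b) (hadj b') (fun h => hne (Sum.inr_injective h)) hbb
  rwa [Finset.card_univ, Fintype.card_fin, card_colours] at hle

end Pool.Agent.Results.MP_b15362_co.CompleteBipartite
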